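import Mathlib

/-!
# Project RIG, step 0: powers of the ideal of the variables in a power series ring
-/

set_option autoImplicit false

namespace Pool.Agent.Helper93.RG0

open MvPowerSeries

variable {k : ℕ}

/-- A series without terms of degree `0` is a combination of the variables with coefficients having
no terms of degree `< s` if the series has none of degree `< s + 1`. -/
theorem exists_eq_sum (s : ℕ) (f : MvPowerSeries (Fin k) ℂ)
    (hf : ∀ d : Fin k →₀ ℕ, d.degree < s + 1 → coeff d f = 0) :
    ∃ g : Fin k → MvPowerSeries (Fin k) ℂ,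
      (∀ i, ∀ d : Fin k →₀ ℕ, d.degree < s → coeff d (g i) = 0) ∧ f = ∑ i, X i * g i := by
  classical
  have hex : ∀ d : Fin k →₀ ℕ, d ≠ 0 → ∃ i, d i ≠ 0 := by
    intro d hd
    by_contra h
    push Not at h
    exact hd (Finsupp.ext h)
  let c : (Fin k →₀ ℕ) → Option (Fin k) := fun d =>
    if h : d ≠ 0 then some (hex d h).choose else none
  have hc : ∀ d : Fin k →₀ ℕ, d ≠ 0 → ∃ i, c d = some i ∧ d i ≠ 0 := by
    intro d hd
    exact ⟨(hex d hd).choose, by simp only [c]; rw [dif_pos hd], (hex d hd).choose_spec⟩
  let g : Fin k → MvPowerSeries (Fin k) ℂ := fun i => fun e =>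
    if c (e + Finsupp.single i 1) = some i then coeff (e + Finsupp.single i 1) f else 0
  have hg : ∀ i e, coeff e (g i) =
      if c (e + Finsupp.single i 1) = some i then coeff (e + Finsupp.single i 1) f else 0 := by
    intro i e
    rfl
  refine ⟨g, ?_, ?_⟩
  · intro i d hd
    rw [hg]
    split_ifs
    · apply hf
      rw [map_add, Finsupp.degree_single]
      omega
    · rfl
  · ext d
    rw [map_sum]
    have hterm : ∀ i, coeff d (X i * g i) = if c d = some i ∧ d i ≠ 0 then coeff d f else 0 := by
      intro i
      rw [X, coeff_monomial_mul, one_mul, hg]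
      by_cases hi : Finsupp.single i 1 ≤ d
      · have h1 : d i ≠ 0 := by
          have := hi i
          rw [Finsupp.single_eq_same] at this
          omega
        rw [if_pos hi, tsub_add_cancel_of_le hi]
        simp [h1]
      · have h1 : d i = 0 := by
          by_contra h
          apply hi
          rw [Finsupp.single_le_iff]
          omega
        rw [if_neg hi]
        simp [h1]
    rw [Finset.sum_congr rfl (fun i _ => hterm i)]
    by_cases hd : d = 0
    · subst hd
      rw [Finset.sum_eq_zero]
      · apply hf
        simp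
      · intro i _
        simp
    · obtain ⟨i, hi, hdi⟩ := hc d hd
      rw [Finset.sum_eq_single i]
      · rw [if_pos ⟨hi, hdi⟩]
      · intro j _ hj
        rw [if_neg]
        rintro ⟨h1, _⟩
        rw [hi] at h1
        exact hj (Option.some.inj h1).symm
      · intro h
        exact absurd (Finset.mem_univ _) h

/-- Series without terms of degree `< s` are in the `s`-th power of the ideal of the variables. -/
theorem mem_span_pow (s : ℕ) : ∀ f : MvPowerSeries (Fin k) ℂ,
    (∀ d : Fin k →₀ ℕ, d.degree < s → coeff d f = 0) →
    f ∈ (Ideal.span (Set.range (X : Fin k → MvPowerSeries (Fin k) ℂ))) ^ s := by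
  induction s with
  | zero => intro f _; rw [pow_zero, Ideal.one_eq_top]; exact Submodule.mem_top
  | succ s ih =>
    intro f hf
    obtain ⟨g, hg, rfl⟩ := exists_eq_sum s f hf
    refine Ideal.sum_mem _ fun i _ => ?_
    rw [pow_succ']
    exact Ideal.mul_mem_mul (Ideal.subset_span ⟨i, rfl⟩) (ih _ (hg i))

theorem coeff_mul_eq_zero (s : ℕ) (r f : MvPowerSeries (Fin k) ℂ)
    (hf : ∀ d : Fin k →₀ ℕ, d.degree < s → coeff d f = 0) :
    ∀ d : Fin k →₀ ℕ, d.degree < s → coeff d (r * f) = 0 := by
  classical
  intro d hd
  rw [coeff_mul]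
  refine Finset.sum_eq_zero fun p hp => ?_
  rw [Finset.HasAntidiagonal.mem_antidiagonal] at hp
  rw [hf p.2, mul_zero]
  have h2 := congrArg Finsupp.degree hp
  rw [map_add] at h2
  omega

theorem coeff_eq_zero_of_mem_pow (s : ℕ) : ∀ f : MvPowerSeries (Fin k) ℂ,
    f ∈ (Ideal.span (Set.range (X : Fin k → MvPowerSeries (Fin k) ℂ))) ^ s →
    ∀ d : Fin k →₀ ℕ, d.degree < s → coeff d f = 0 := by
  classical
  induction s with
  | zero => intro f _ d hd; omega
  | succ s ih =>
    intro f hf
    rw [pow_succ'] at hf
    refine Submodule.mul_induction_on hf ?_ ?_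
    · intro a ha b hb
      rw [mul_comm]
      refine Submodule.span_induction
        (p := fun a _ => ∀ d : Fin k →₀ ℕ, d.degree < s + 1 → coeff d (b * a) = 0) ?_ ?_ ?_ ?_ ha
      · rintro _ ⟨i, rfl⟩ d hd
        rw [← X_mul, X, coeff_monomial_mul, one_mul]
        split_ifs with hi
        · apply ih b hb
          have h1 : (d - Finsupp.single i 1) + Finsupp.single i 1 = d := tsub_add_cancel_of_le hi
          have h2 := congrArg Finsupp.degree h1
          rw [map_add, Finsupp.degree_single] at h2
          omega
        · rfl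
      · intro d _
        simp
      · intro x y _ _ hx hy d hd
        rw [mul_add, map_add, hx d hd, hy d hd, add_zero]
      · intro r x _ hx d hd
        rw [smul_eq_mul, mul_left_comm]
        exact coeff_mul_eq_zero (s + 1) r (b * x) hx d hd
    · intro a b ha hb d hd
      rw [map_add, ha d hd, hb d hd, add_zero]

end Pool.Agent.Helper93.RG0
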