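import Pool.Agent.Helper93.RG0.Fin

/-!
# Project RIG, step 0: the number of generators of a minimal reduction is the dimension
-/

set_option autoImplicit false

noncomputable section

namespace Pool.Agent.Helper93.RG0

open MvPowerSeries IsLocalRing

/-- Integral extensions do not lower the dimension. -/
theorem ringKrullDim_le_of_integral {R S : Type*} [CommRing R] [CommRing S] [Algebra R S]
    [Algebra.IsIntegral R S] (hinj : Function.Injective (algebraMap R S)) :
    ringKrullDim R ≤ ringKrullDim S := by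
  refine iSup_le fun l => ?_
  have h0 : ∃ P : Ideal S, P.IsPrime ∧ P.LiesOver l.head.asIdeal := by
    obtain ⟨Q, _, hQ1, hQ2⟩ := Ideal.exists_ideal_over_prime_of_isIntegral l.head.asIdeal
      (⊥ : Ideal S) (by
        rw [← RingHom.ker_eq_comap_bot, (RingHom.injective_iff_ker_eq_bot _).1 hinj]
        exact bot_le)
    exact ⟨Q, hQ1, ⟨hQ2.symm⟩⟩
  obtain ⟨P, hP, hPl⟩ := h0
  obtain ⟨L, hL, _, _⟩ := Ideal.exists_ltSeries_of_hasGoingUp l P
  rw [← hL]
  exact le_iSup (fun L : LTSeries (PrimeSpectrum S) => ((L.length : ℕ) : WithBot ℕ∞)) L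

theorem le_ringKrullDim (k : ℕ) : (k : WithBot ℕ∞) ≤ ringKrullDim (MvPowerSeries (Fin k) ℂ) := by
  induction k with
  | zero => exact ringKrullDim_nonneg_of_nontrivial
  | succ k ih =>
    rw [ringKrullDim_eq_of_ringEquiv (finSuccEquiv ℂ k).toRingEquiv]
    refine le_trans ?_ ringKrullDim_succ_le_ringKrullDim_powerseries
    push_cast
    gcongr

variable {n : ℕ} (I : Ideal (MvPowerSeries (Fin n) ℂ))

/-- A reduction has at least `dim` generators. -/
theorem dim_le_of_red [IsLocalRing (MvPowerSeries (Fin n) ℂ ⧸ I)] {k : ℕ}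
    (p : Fin k → MvPowerSeries (Fin n) ℂ) (h : Red I k p) :
    ringKrullDim (MvPowerSeries (Fin n) ℂ ⧸ I) ≤ k := by
  classical
  obtain ⟨hp, r, hr⟩ := h
  rw [← IsLocalRing.maximalIdeal_height_eq_ringKrullDim]
  have h1 : maximalIdeal (MvPowerSeries (Fin n) ℂ ⧸ I) ∈
      (Ideal.span (Set.range fun i => Ideal.Quotient.mk I (p i))).minimalPrimes := by
    refine ⟨⟨inferInstance, ?_⟩, ?_⟩
    · rw [Ideal.span_le]
      rintro _ ⟨i, rfl⟩
      exact mk_mem_maximalIdeal I _ (hp i)
    · rintro q ⟨hq, hqQ⟩ _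
      have h2 : maximalIdeal (MvPowerSeries (Fin n) ℂ ⧸ I) ^ (r + 1) ≤ q :=
        (hr.trans Ideal.mul_le_left).trans hqQ
      exact hq.le_of_pow_le h2
  have h3 := Ideal.height_le_card_of_mem_minimalPrimes_span (Set.finite_range _) h1
  have h4 : (Set.range fun i => Ideal.Quotient.mk I (p i)).ncard ≤ k := by
    rw [← Set.image_univ]
    refine (Set.ncard_image_le Set.finite_univ).trans ?_
    rw [Set.ncard_univ, Nat.card_eq_fintype_card, Fintype.card_fin]
  have h5 : (maximalIdeal (MvPowerSeries (Fin n) ℂ ⧸ I)).height ≤ (k : ℕ∞) :=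
    h3.trans (by exact_mod_cast h4)
  exact_mod_cast h5

theorem isLocalRing_quot [Nontrivial (MvPowerSeries (Fin n) ℂ ⧸ I)] :
    IsLocalRing (MvPowerSeries (Fin n) ℂ ⧸ I) :=
  IsLocalRing.of_surjective' (Ideal.Quotient.mk I) Ideal.Quotient.mk_surjective

/-- Noether normalisation by a minimal reduction of the maximal ideal. -/
theorem noether [IsDomain (MvPowerSeries (Fin n) ℂ ⧸ I)] [IsLocalRing (MvPowerSeries (Fin n) ℂ ⧸ I)]
    (d : ℕ) (hdim : ringKrullDim (MvPowerSeries (Fin n) ℂ ⧸ I) = d) :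
    ∃ φ : MvPowerSeries (Fin d) ℂ →ₐ[ℂ] (MvPowerSeries (Fin n) ℂ ⧸ I),
      Function.Injective φ ∧ φ.toRingHom.Finite ∧
      (∀ i, φ (X i) ∈ maximalIdeal (MvPowerSeries (Fin n) ℂ ⧸ I)) ∧
      ∃ r, maximalIdeal (MvPowerSeries (Fin n) ℂ ⧸ I) ^ (r + 1) ≤
        Ideal.span (Set.range fun i => φ (X i)) *
          maximalIdeal (MvPowerSeries (Fin n) ℂ ⧸ I) ^ r := by
  classical
  have hex : ∃ k, ∃ p, Red I k p := ⟨n, exists_red I⟩
  obtain ⟨p, hp⟩ := Nat.find_spec hex
  have hmin : ∀ k < Nat.find hex, ¬ ∃ p, Red I k p := fun k hk => Nat.find_min hex hk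
  generalize Nat.find hex = k at p hp hmin
  -- injectivity
  have hinj : Function.Injective (ev I p hp.1) := by
    rw [injective_iff_map_eq_zero]
    intro f hf
    by_contra hf0
    obtain _ | k := k
    · have h1 : f = C (constantCoeff f) := by
        ext d
        have : d = 0 := Subsingleton.elim _ _
        subst this
        simp
      have h2 : constantCoeff f ≠ 0 := by
        intro h
        rw [h, map_zero] at h1
        exact hf0 h1
      have h3 : ev I p hp.1 f = algebraMap ℂ _ (constantCoeff f) := by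
        conv_lhs => rw [h1]
        exact AlgHom.commutes _ _
      rw [h3] at hf
      exact h2 ((_root_.map_eq_zero _).1 hf)
    · exact hmin k (Nat.lt_succ_self k) (red_drop I p hp f hf0 hf)
  have hfin := ev_finite I p hp
  have hkd : k = d := by
    apply le_antisymm
    · algebraize [(ev I p hp.1).toRingHom]
      have h1 : ringKrullDim (MvPowerSeries (Fin k) ℂ) ≤
          ringKrullDim (MvPowerSeries (Fin n) ℂ ⧸ I) :=
        ringKrullDim_le_of_integral (R := MvPowerSeries (Fin k) ℂ) hinj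
      rw [hdim] at h1
      exact_mod_cast (le_ringKrullDim k).trans h1
    · have h1 := dim_le_of_red I p hp
      rw [hdim] at h1
      exact_mod_cast h1
  subst hkd
  refine ⟨ev I p hp.1, hinj, hfin, fun i => ?_, ?_⟩
  · rw [ev_X]
    exact mk_mem_maximalIdeal I _ (hp.1 i)
  · obtain ⟨r, hr⟩ := hp.2
    refine ⟨r, hr.trans (le_of_eq ?_)⟩
    simp_rw [ev_X]

end Pool.Agent.Helper93.RG0
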