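import Mathlib

/-!
# Project RIG, step 0: a reduction of the maximal ideal with algebraically dependent generators can be shortened
-/

set_option autoImplicit false

namespace Pool.Agent.Helper93.RG0

open IsLocalRing

section algebra

variable {A : Type*} [CommRing A] [Algebra ℂ A] {k : ℕ}

theorem mono_sub_mem (x : Fin k → A) (c : Fin k → ℂ) (j : Fin k) (n : ℕ) :
    ∀ d : Fin k →₀ ℕ, d.degree = n + 1 →
      algebraMap ℂ A (c j ^ (n + 1)) * (d.prod fun i e => x i ^ e) -
        algebraMap ℂ A (d.prod fun i e => c i ^ e) * x j ^ (n + 1) ∈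
      Ideal.span (Set.range fun i => c j • x i - c i • x j) * Ideal.span (Set.range x) ^ n := by
  classical
  have hQ : ∀ i, x i ∈ Ideal.span (Set.range x) := fun i => Ideal.subset_span ⟨i, rfl⟩
  have hy : ∀ i, algebraMap ℂ A (c j) * x i - algebraMap ℂ A (c i) * x j ∈
      Ideal.span (Set.range fun i => c j • x i - c i • x j) := by
    intro i
    rw [← Algebra.smul_def, ← Algebra.smul_def]
    exact Ideal.subset_span ⟨i, rfl⟩
  have hsplit : ∀ d : Fin k →₀ ℕ, ∀ m : ℕ, d.degree = m + 1 →
      ∃ (i : Fin k) (e : Fin k →₀ ℕ), d = e + Finsupp.single i 1 ∧ e.degree = m := by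
    intro d m hd
    have h1 : d ≠ 0 := by
      rintro rfl
      simp at hd
    obtain ⟨i, hi⟩ : ∃ i, d i ≠ 0 := by
      by_contra h
      push Not at h
      exact h1 (Finsupp.ext h)
    have h2 : Finsupp.single i 1 ≤ d := by
      rw [Finsupp.single_le_iff]
      omega
    refine ⟨i, d - Finsupp.single i 1, (tsub_add_cancel_of_le h2).symm, ?_⟩
    have h3 := congrArg Finsupp.degree (tsub_add_cancel_of_le h2)
    rw [map_add, Finsupp.degree_single] at h3
    omega
  have hprodx : ∀ (e : Fin k →₀ ℕ) (i : Fin k),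
      ((e + Finsupp.single i 1).prod fun i e => x i ^ e) = (e.prod fun i e => x i ^ e) * x i := by
    intro e i
    rw [Finsupp.prod_add_index' (by simp) (by intro a b c; exact pow_add _ _ _),
      Finsupp.prod_single_index (by simp), pow_one]
  have hprodc : ∀ (e : Fin k →₀ ℕ) (i : Fin k),
      ((e + Finsupp.single i 1).prod fun i e => c i ^ e) = (e.prod fun i e => c i ^ e) * c i := by
    intro e i
    rw [Finsupp.prod_add_index' (by simp) (by intro a b c; exact pow_add _ _ _),
      Finsupp.prod_single_index (by simp), pow_one]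
  induction n with
  | zero =>
    intro d hd
    obtain ⟨i, e, rfl, he⟩ := hsplit d 0 hd
    have he0 : e = 0 := by
      rwa [Finsupp.degree_eq_zero_iff] at he
    subst he0
    rw [hprodx, hprodc, pow_zero, Ideal.one_eq_top, Ideal.mul_top]
    simpa using hy i
  | succ n ih =>
    intro d hd
    obtain ⟨i, e, rfl, he⟩ := hsplit d (n + 1) hd
    rw [hprodx, hprodc]
    have h1 := ih e he
    have key : algebraMap ℂ A (c j ^ (n + 1 + 1)) * ((e.prod fun i e => x i ^ e) * x i) -
        algebraMap ℂ A ((e.prod fun i e => c i ^ e) * c i) * x j ^ (n + 1 + 1) =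
      (algebraMap ℂ A (c j ^ (n + 1)) * (e.prod fun i e => x i ^ e) -
        algebraMap ℂ A (e.prod fun i e => c i ^ e) * x j ^ (n + 1)) *
          (algebraMap ℂ A (c j) * x i) +
      (algebraMap ℂ A (c j) * x i - algebraMap ℂ A (c i) * x j) *
        (algebraMap ℂ A (e.prod fun i e => c i ^ e) * x j ^ (n + 1)) := by
      rw [map_mul, map_pow, map_pow]
      ring
    rw [key]
    refine Ideal.add_mem _ ?_ ?_
    · rw [pow_succ, ← mul_assoc]
      exact Ideal.mul_mem_mul h1 (Ideal.mul_mem_left _ _ (hQ i))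
    · refine Ideal.mul_mem_mul (hy i) (Ideal.mul_mem_left _ _ (Ideal.pow_mem_pow (hQ j) _))

theorem homog_sub_mem (x : Fin k → A) (c : Fin k → ℂ) (j : Fin k) (n : ℕ)
    (g : MvPolynomial (Fin k) ℂ) (hg : g.IsHomogeneous (n + 1)) :
    algebraMap ℂ A (c j ^ (n + 1)) * MvPolynomial.aeval x g -
        algebraMap ℂ A (MvPolynomial.eval c g) * x j ^ (n + 1) ∈
      Ideal.span (Set.range fun i => c j • x i - c i • x j) * Ideal.span (Set.range x) ^ n := by
  classical
  rw [MvPolynomial.aeval_def, MvPolynomial.eval₂_eq, MvPolynomial.eval_eq, map_sum,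
    Finset.mul_sum, Finset.sum_mul, ← Finset.sum_sub_distrib]
  refine Ideal.sum_mem _ fun d hd => ?_
  have hdeg : d.degree = n + 1 := by
    by_contra h
    exact MvPolynomial.mem_support_iff.1 hd (hg.coeff_eq_zero h)
  have h1 := Ideal.mul_mem_left _ (algebraMap ℂ A (MvPolynomial.coeff d g))
    (mono_sub_mem x c j n d hdeg)
  have h2 : (∏ i ∈ d.support, x i ^ d i) = d.prod fun i e => x i ^ e := rfl
  have h3 : (∏ i ∈ d.support, c i ^ d i) = d.prod fun i e => c i ^ e := rfl
  rw [h2, h3, map_mul]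
  refine (congrArg (· ∈ _) ?_).mp h1
  ring

theorem span_pow_le (x : Fin k → A) (c : Fin k → ℂ) (j : Fin k) (hj : c j ≠ 0) (n : ℕ) :
    Ideal.span (Set.range x) ^ (n + 1) ≤
      Ideal.span (Set.range fun i => c j • x i - c i • x j) * Ideal.span (Set.range x) ^ n ⊔
        Ideal.span {x j ^ (n + 1)} := by
  set Q := Ideal.span (Set.range x) with hQ
  set Q' := Ideal.span (Set.range fun i => c j • x i - c i • x j) with hQ'
  have h1 : Q ≤ Q' ⊔ Ideal.span {x j} := by
    rw [hQ, Ideal.span_le]
    rintro _ ⟨i, rfl⟩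
    have h2 : x i = algebraMap ℂ A (c j)⁻¹ * (c j • x i - c i • x j) +
        algebraMap ℂ A ((c j)⁻¹ * c i) * x j := by
      rw [Algebra.smul_def, Algebra.smul_def, mul_sub, ← mul_assoc, ← map_mul, inv_mul_cancel₀ hj,
        map_one, one_mul, map_mul]
      ring
    rw [SetLike.mem_coe, h2]
    refine Ideal.add_mem _ (Ideal.mem_sup_left (Ideal.mul_mem_left _ _ (Ideal.subset_span ⟨i, rfl⟩)))
      (Ideal.mem_sup_right (Ideal.mul_mem_left _ _ (Ideal.subset_span rfl)))
  induction n with
  | zero =>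
    rw [zero_add, pow_one, pow_zero, mul_one, pow_one]
    exact h1
  | succ n ih =>
    calc Q ^ (n + 1 + 1) = Q * Q ^ (n + 1) := by rw [pow_succ']
      _ ≤ (Q' ⊔ Ideal.span {x j}) * Q ^ (n + 1) := Ideal.mul_mono_left h1
      _ = Q' * Q ^ (n + 1) ⊔ Ideal.span {x j} * Q ^ (n + 1) := by rw [Ideal.sup_mul]
      _ ≤ Q' * Q ^ (n + 1) ⊔ Ideal.span {x j} * (Q' * Q ^ n ⊔ Ideal.span {x j ^ (n + 1)}) :=
          sup_le_sup_left (Ideal.mul_mono_right ih) _
      _ ≤ Q' * Q ^ (n + 1) ⊔ Ideal.span {x j ^ (n + 1 + 1)} := by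
          rw [Ideal.mul_sup, Ideal.span_singleton_mul_span_singleton, ← pow_succ']
          refine sup_le le_sup_left (sup_le (le_trans ?_ le_sup_left) le_sup_right)
          rw [← mul_assoc, mul_comm (Ideal.span {x j}), mul_assoc, pow_succ']
          refine Ideal.mul_mono_right (Ideal.mul_mono_left ?_)
          rw [Ideal.span_singleton_le_iff_mem]
          exact Ideal.subset_span ⟨j, rfl⟩

end algebra

section loc

variable {A : Type*} [CommRing A] [IsLocalRing A] [IsNoetherianRing A] [Algebra ℂ A] {k : ℕ}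

/-- If the generators `x` of a reduction of the maximal ideal satisfy a nonzero homogeneous relation
modulo higher powers, then some `k - 1` linear combinations generate a reduction. -/
theorem drop_one (x : Fin (k + 1) → A) (hx : ∀ i, x i ∈ maximalIdeal A) (s r : ℕ)
    (g : MvPolynomial (Fin (k + 1)) ℂ) (hg : g.IsHomogeneous s) (hg0 : g ≠ 0)
    (hgx : MvPolynomial.aeval x g ∈ Ideal.span (Set.range x) ^ (s + 1))
    (hr : maximalIdeal A ^ (r + 1) ≤ Ideal.span (Set.range x) * maximalIdeal A ^ r) :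
    ∃ (c : Fin (k + 1) → ℂ) (j : Fin (k + 1)) (N : ℕ),
      maximalIdeal A ^ (N + 1) ≤
        Ideal.span (Set.range fun i : Fin k => c j • x (j.succAbove i) - c (j.succAbove i) • x j) *
          maximalIdeal A ^ N := by
  classical
  set m := maximalIdeal A with hm
  set Q := Ideal.span (Set.range x) with hQ
  have hQm : Q ≤ m := by
    rw [hQ, Ideal.span_le]
    rintro _ ⟨i, rfl⟩
    exact hx i
  obtain _ | n := s
  · exfalso
    rw [zero_add, pow_one] at hgx
    have h1 : g = MvPolynomial.C (MvPolynomial.coeff 0 g) := by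
      have := MvPolynomial.totalDegree_eq_zero_iff_eq_C.1 (Nat.le_zero.1 hg.totalDegree_le)
      exact this
    have h2 : MvPolynomial.coeff 0 g ≠ 0 := by
      intro h
      rw [h, map_zero] at h1
      exact hg0 h1
    rw [h1, MvPolynomial.aeval_C] at hgx
    have h3 : IsUnit (algebraMap ℂ A (MvPolynomial.coeff 0 g)) :=
      (isUnit_iff_ne_zero.2 h2).map _
    exact (IsLocalRing.mem_maximalIdeal _).1 (hQm hgx) h3
  · obtain ⟨c, hc⟩ : ∃ c, MvPolynomial.eval c g ≠ 0 := by
      by_contra h
      push Not at h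
      exact hg0 (MvPolynomial.funext fun c => by rw [h c, map_zero])
    obtain ⟨j, hj⟩ : ∃ j, c j ≠ 0 := by
      by_contra h
      push Not at h
      apply hc
      have h1 : c = 0 := funext h
      rw [h1, MvPolynomial.eval_zero, MvPolynomial.constantCoeff_eq]
      exact hg.coeff_eq_zero (by rw [map_zero]; omega)
    set Q' := Ideal.span (Set.range fun i => c j • x i - c i • x j) with hQ'
    have hQ'eq : Q' ≤ Ideal.span
        (Set.range fun i : Fin k => c j • x (j.succAbove i) - c (j.succAbove i) • x j) := by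
      rw [hQ', Ideal.span_le]
      rintro _ ⟨i, rfl⟩
      rcases Fin.eq_self_or_eq_succAbove j i with rfl | ⟨i', rfl⟩
      · simp only [sub_self]
        exact Ideal.zero_mem _
      · exact Ideal.subset_span ⟨i', rfl⟩
    have h1 := homog_sub_mem x c j n g hg
    rw [← hQ, ← hQ'] at h1
    -- the power of x j
    have h2 : x j ^ (n + 1) ∈ Q' * Q ^ n ⊔ m * Q ^ (n + 1) := by
      have h3 : algebraMap ℂ A (MvPolynomial.eval c g) * x j ^ (n + 1) ∈
          Q' * Q ^ n ⊔ m * Q ^ (n + 1) := by
        have h4 : algebraMap ℂ A (MvPolynomial.eval c g) * x j ^ (n + 1) =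
            algebraMap ℂ A (c j ^ (n + 1)) * MvPolynomial.aeval x g -
            (algebraMap ℂ A (c j ^ (n + 1)) * MvPolynomial.aeval x g -
              algebraMap ℂ A (MvPolynomial.eval c g) * x j ^ (n + 1)) := by ring
        rw [h4]
        refine Ideal.sub_mem _ (Ideal.mem_sup_right (Ideal.mul_mem_left _ _ ?_))
          (Ideal.mem_sup_left h1)
        rw [pow_succ'] at hgx
        exact Ideal.mul_mono_left hQm hgx
      have h5 : x j ^ (n + 1) = algebraMap ℂ A (MvPolynomial.eval c g)⁻¹ *
          (algebraMap ℂ A (MvPolynomial.eval c g) * x j ^ (n + 1)) := by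
        rw [← mul_assoc, ← map_mul, inv_mul_cancel₀ hc, map_one, one_mul]
      rw [h5]
      exact Ideal.mul_mem_left _ _ h3
    have h6 : Q ^ (n + 1) ≤ Q' * Q ^ n ⊔ m • Q ^ (n + 1) := by
      refine (span_pow_le x c j hj n).trans (sup_le le_sup_left ?_)
      rw [Ideal.span_singleton_le_iff_mem]
      exact h2
    have h7 : Q ^ (n + 1) ≤ Q' * Q ^ n := by
      refine Submodule.le_of_le_smul_of_le_jacobson_bot (IsNoetherian.noetherian _) ?_ h6
      rw [IsLocalRing.jacobson_eq_maximalIdeal _ bot_ne_top]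
    have h8 : ∀ i, m ^ (r + i) ≤ Q ^ i * m ^ r := by
      intro i
      induction i with
      | zero => rw [pow_zero, one_mul, add_zero]
      | succ i ih =>
        calc m ^ (r + (i + 1)) = m * m ^ (r + i) := by rw [← pow_succ', add_assoc]
          _ ≤ m * (Q ^ i * m ^ r) := Ideal.mul_mono_right ih
          _ = Q ^ i * m ^ (r + 1) := by rw [pow_succ']; ring
          _ ≤ Q ^ i * (Q * m ^ r) := Ideal.mul_mono_right hr
          _ = Q ^ (i + 1) * m ^ r := by rw [pow_succ]; ring
    refine ⟨c, j, r + n, ?_⟩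
    calc m ^ (r + n + 1) ≤ Q ^ (n + 1) * m ^ r := by rw [add_assoc]; exact h8 (n + 1)
      _ ≤ Q' * Q ^ n * m ^ r := Ideal.mul_mono_left h7
      _ ≤ Q' * m ^ n * m ^ r := Ideal.mul_mono_left (Ideal.mul_mono_right (Ideal.pow_right_mono hQm n))
      _ = Q' * m ^ (r + n) := by rw [mul_assoc, ← pow_add, add_comm]
      _ ≤ _ := Ideal.mul_mono_left hQ'eq

end loc

end Pool.Agent.Helper93.RG0
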