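import Pool.Agent.Helper93.RG0.Red

/-!
# Project RIG, step 0: finiteness over a complete ring
-/

set_option autoImplicit false

noncomputable section

namespace Pool.Agent.Helper93.RG0

open MvPowerSeries IsLocalRing

section general

variable {R : Type*} [CommRing R] (J : Ideal R)

theorem mem_smul_top_pi {N : ℕ} (n : ℕ) (v : Fin N → R) :
    v ∈ (J ^ n • ⊤ : Submodule R (Fin N → R)) ↔ ∀ i, v i ∈ J ^ n := by
  classical
  constructor
  · intro h i
    refine Submodule.smul_induction_on h (fun r hr w _ => ?_) (fun x y hx hy => ?_)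
    · rw [Pi.smul_apply, smul_eq_mul]
      exact Ideal.mul_mem_right _ _ hr
    · rw [Pi.add_apply]
      exact Ideal.add_mem _ hx hy
  · intro h
    have h1 : v = ∑ i, v i • (Pi.single i 1 : Fin N → R) := by
      funext j
      rw [Finset.sum_apply]
      simp [Pi.single_apply]
    rw [h1]
    exact Submodule.sum_mem _ fun i _ => Submodule.smul_mem_smul (h i) Submodule.mem_top

theorem precomplete_pi [IsPrecomplete J R] (N : ℕ) : IsPrecomplete J (Fin N → R) := by
  refine ⟨fun f hf => ?_⟩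
  have h1 : ∀ i, ∃ L : R, ∀ n, f n i ≡ L [SMOD (J ^ n • ⊤ : Submodule R R)] := by
    intro i
    refine IsPrecomplete.prec ‹_› (f := fun n => f n i) fun {m n} hmn => ?_
    rw [SModEq.sub_mem, smul_eq_mul, Ideal.mul_top]
    have h2 := hf hmn
    rw [SModEq.sub_mem, mem_smul_top_pi] at h2
    exact h2 i
  choose L hL using h1
  refine ⟨L, fun n => ?_⟩
  rw [SModEq.sub_mem, mem_smul_top_pi]
  intro i
  have h3 := hL i n
  rw [SModEq.sub_mem, smul_eq_mul, Ideal.mul_top] at h3
  exact h3

theorem finite_of_mod [IsPrecomplete J R] {M : Type*} [AddCommGroup M] [Module R M]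
    [IsHausdorff J M] {N : ℕ} (e : Fin N → M)
    (h : ⊤ ≤ Submodule.span R (Set.range e) ⊔ J • (⊤ : Submodule R M)) : Module.Finite R M := by
  have := precomplete_pi J N
  let f : (Fin N → R) →ₗ[R] M := Fintype.linearCombination R e
  have hf : Function.Surjective f := by
    apply surjective_of_mkQ_comp_surjective (I := J)
    intro y
    obtain ⟨y, rfl⟩ := Submodule.mkQ_surjective _ y
    obtain ⟨a, ha, b, hb, rfl⟩ := Submodule.mem_sup.1 (h (Submodule.mem_top (x := y)))
    rw [← Fintype.range_linearCombination] at ha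
    obtain ⟨v, hv⟩ := ha
    refine ⟨v, ?_⟩
    rw [LinearMap.comp_apply, map_add, show (Submodule.mkQ (J • (⊤ : Submodule R M))) b = 0 from
      (Submodule.Quotient.mk_eq_zero _).2 hb, add_zero]
    exact congrArg _ hv
  exact Module.Finite.of_surjective f hf

end general

section quotient

variable {n : ℕ} (I : Ideal (MvPowerSeries (Fin n) ℂ))

/-- The quotient is spanned over the constants by finitely many elements modulo any power of its
maximal ideal. -/
theorem exists_span_mod_pow [IsLocalRing (MvPowerSeries (Fin n) ℂ ⧸ I)] (r : ℕ) :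
    ∃ (N : ℕ) (e : Fin N → MvPowerSeries (Fin n) ℂ ⧸ I), ∀ y : MvPowerSeries (Fin n) ℂ ⧸ I,
      ∃ c : Fin N → ℂ, y - ∑ i, c i • e i ∈ maximalIdeal (MvPowerSeries (Fin n) ℂ ⧸ I) ^ r := by
  classical
  have hfin : {d : Fin n →₀ ℕ | d.degree < r}.Finite := Finsupp.finite_of_degree_lt r
  obtain ⟨N, g, hg⟩ : ∃ (N : ℕ) (g : Fin N ≃ {d : Fin n →₀ ℕ | d.degree < r}), True := by
    have := hfin.to_subtype
    exact ⟨_, (Finite.equivFin _).symm, trivial⟩
  refine ⟨N, fun i => Ideal.Quotient.mk I (monomial (g i : Fin n →₀ ℕ) (1 : ℂ)), fun y => ?_⟩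
  obtain ⟨f, rfl⟩ := Ideal.Quotient.mk_surjective y
  refine ⟨fun i => coeff (g i : Fin n →₀ ℕ) f, ?_⟩
  have h1 : f - ∑ i, (coeff (g i : Fin n →₀ ℕ) f) • monomial (g i : Fin n →₀ ℕ) (1 : ℂ) ∈
      Ideal.span (Set.range (X : Fin n → MvPowerSeries (Fin n) ℂ)) ^ r := by
    refine mem_span_pow r _ fun d hd => ?_
    rw [map_sub, map_sum, sub_eq_zero]
    have h2 : ∀ i, coeff d ((coeff (g i : Fin n →₀ ℕ) f) • monomial (g i : Fin n →₀ ℕ) (1 : ℂ)) =
        if g.symm ⟨d, hd⟩ = i then coeff d f else 0 := by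
      intro i
      rw [map_smul, coeff_monomial, smul_eq_mul]
      by_cases h : g.symm ⟨d, hd⟩ = i
      · subst h
        simp
      · rw [if_neg h, if_neg, mul_zero]
        intro h3
        apply h
        rw [Equiv.symm_apply_eq]
        exact Subtype.ext h3
    rw [Finset.sum_congr rfl (fun i _ => h2 i), Finset.sum_ite_eq]
    simp
  have h3 := Ideal.mem_map_of_mem (Ideal.Quotient.mk I) h1
  rw [Ideal.map_pow, Ideal.map_span, ← Set.range_comp] at h3
  rw [maximalIdeal_quot]
  refine (congrArg (· ∈ _) ?_).mp h3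
  rw [map_sub, map_sum]
  congr 1

/-- A reduction gives a finite algebra structure. -/
theorem ev_finite [IsLocalRing (MvPowerSeries (Fin n) ℂ ⧸ I)] {k : ℕ}
    (p : Fin k → MvPowerSeries (Fin n) ℂ) (h : Red I k p) :
    (ev I p h.1).toRingHom.Finite := by
  classical
  obtain ⟨hp, r, hr⟩ := h
  algebraize [(ev I p hp).toRingHom]
  set J := Ideal.span (Set.range (X : Fin k → MvPowerSeries (Fin k) ℂ)) with hJ
  have hJmap : J.map (algebraMap (MvPowerSeries (Fin k) ℂ) (MvPowerSeries (Fin n) ℂ ⧸ I)) =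
      Ideal.span (Set.range fun i => Ideal.Quotient.mk I (p i)) := by
    rw [hJ, Ideal.map_span, ← Set.range_comp]
    congr 2
    funext i
    exact ev_X I p hp i
  have hQm : Ideal.span (Set.range fun i => Ideal.Quotient.mk I (p i)) ≤
      maximalIdeal (MvPowerSeries (Fin n) ℂ ⧸ I) := by
    rw [Ideal.span_le]
    rintro _ ⟨i, rfl⟩
    exact mk_mem_maximalIdeal I _ (hp i)
  have hH : IsHausdorff J (MvPowerSeries (Fin n) ℂ ⧸ I) :=
    IsHausdorff.of_map (J := maximalIdeal (MvPowerSeries (Fin n) ℂ ⧸ I)) (by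
      rw [hJmap]; exact hQm)
  obtain ⟨N, e, he⟩ := exists_span_mod_pow I (r + 1)
  refine finite_of_mod J e fun y _ => ?_
  obtain ⟨c, hc⟩ := he y
  have h1 : y = ∑ i, c i • e i + (y - ∑ i, c i • e i) := by ring
  rw [h1]
  refine Submodule.add_mem_sup ?_ ?_
  · refine Submodule.sum_mem _ fun i _ => ?_
    have h2 : c i • e i = (C (c i) : MvPowerSeries (Fin k) ℂ) • e i := by
      have h3 : (C (c i) : MvPowerSeries (Fin k) ℂ) • e i = ev I p hp (C (c i)) * e i := rfl
      have h4 : (C (c i) : MvPowerSeries (Fin k) ℂ) =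
        algebraMap ℂ (MvPowerSeries (Fin k) ℂ) (c i) := rfl
      rw [h3, h4, AlgHom.commutes, ← Algebra.smul_def]
    rw [h2]
    exact Submodule.smul_mem _ _ (Submodule.subset_span ⟨i, rfl⟩)
  · have h4 := hr hc
    have h5 := Ideal.mul_le_left h4
    rw [← hJmap] at h5
    rw [Ideal.smul_top_eq_map]
    exact h5

end quotient

end Pool.Agent.Helper93.RG0
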