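import Pool.Agent.Helper93.RG0.Base
import Pool.Agent.Helper93.RG0.Drop

/-!
# Project RIG, step 0: a minimal reduction of the maximal ideal is algebraically independent
-/

set_option autoImplicit false

noncomputable section

namespace Pool.Agent.Helper93.RG0

open MvPowerSeries IsLocalRing

/-- The maximal ideal of the ring of power series is generated by the variables. -/
theorem maximalIdeal_eq (k : ℕ) : maximalIdeal (MvPowerSeries (Fin k) ℂ) =
    Ideal.span (Set.range (X : Fin k → MvPowerSeries (Fin k) ℂ)) := by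
  have key : ∀ f : MvPowerSeries (Fin k) ℂ, constantCoeff f = 0 ↔
      f ∈ Ideal.span (Set.range (X : Fin k → MvPowerSeries (Fin k) ℂ)) := by
    intro f
    rw [← pow_one (Ideal.span _)]
    constructor
    · intro h
      refine mem_span_pow 1 f fun d hd => ?_
      have : d = 0 := by
        rw [← Finsupp.degree_eq_zero_iff]
        omega
      subst this
      exact h
    · intro h
      exact coeff_eq_zero_of_mem_pow 1 f h 0 (by simp)
  ext f
  rw [IsLocalRing.mem_maximalIdeal, mem_nonunits_iff, MvPowerSeries.isUnit_iff_constantCoeff,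
    isUnit_iff_ne_zero, not_not, key]

variable {n : ℕ} (I : Ideal (MvPowerSeries (Fin n) ℂ))

/-- Evaluation of power series at elements `p i` without constant term, modulo `I`. -/
def ev {k : ℕ} (p : Fin k → MvPowerSeries (Fin n) ℂ) (hp : ∀ i, constantCoeff (p i) = 0) :
    MvPowerSeries (Fin k) ℂ →ₐ[ℂ] (MvPowerSeries (Fin n) ℂ ⧸ I) :=
  (Ideal.Quotient.mkₐ ℂ I).comp (substAlgHom (hasSubst_of_constantCoeff_zero hp))

theorem ev_X {k : ℕ} (p : Fin k → MvPowerSeries (Fin n) ℂ) (hp : ∀ i, constantCoeff (p i) = 0)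
    (i : Fin k) : ev I p hp (X i) = Ideal.Quotient.mk I (p i) := by
  rw [ev, AlgHom.comp_apply, substAlgHom_X]
  rfl

theorem ev_coe {k : ℕ} (p : Fin k → MvPowerSeries (Fin n) ℂ) (hp : ∀ i, constantCoeff (p i) = 0)
    (g : MvPolynomial (Fin k) ℂ) :
    ev I p hp g = MvPolynomial.aeval (fun i => Ideal.Quotient.mk I (p i)) g := by
  rw [ev, AlgHom.comp_apply, substAlgHom_coe]
  have h := MvPolynomial.comp_aeval p (Ideal.Quotient.mkₐ ℂ I)
  exact DFunLike.congr_fun h g

theorem ev_mem {k : ℕ} (p : Fin k → MvPowerSeries (Fin n) ℂ) (hp : ∀ i, constantCoeff (p i) = 0)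
    (s : ℕ) (f : MvPowerSeries (Fin k) ℂ)
    (hf : ∀ d : Fin k →₀ ℕ, d.degree < s → coeff d f = 0) :
    ev I p hp f ∈ Ideal.span (Set.range fun i => Ideal.Quotient.mk I (p i)) ^ s := by
  have h1 := Ideal.mem_map_of_mem (ev I p hp).toRingHom (mem_span_pow s f hf)
  rw [Ideal.map_pow, Ideal.map_span, ← Set.range_comp] at h1
  have h2 : ((ev I p hp).toRingHom ∘ (X : Fin k → MvPowerSeries (Fin k) ℂ)) =
      fun i => Ideal.Quotient.mk I (p i) := by
    funext i
    exact ev_X I p hp i
  rw [h2] at h1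
  exact h1

/-- `x_1, .., x_k` (the classes of `p`) generate a reduction of the maximal ideal. -/
def Red [IsLocalRing (MvPowerSeries (Fin n) ℂ ⧸ I)] (k : ℕ)
    (p : Fin k → MvPowerSeries (Fin n) ℂ) : Prop :=
  (∀ i, constantCoeff (p i) = 0) ∧ ∃ r, maximalIdeal (MvPowerSeries (Fin n) ℂ ⧸ I) ^ (r + 1) ≤
    Ideal.span (Set.range fun i => Ideal.Quotient.mk I (p i)) *
      maximalIdeal (MvPowerSeries (Fin n) ℂ ⧸ I) ^ r

theorem constantCoeff_eq_zero_of_mem [Nontrivial (MvPowerSeries (Fin n) ℂ ⧸ I)]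
    (f : MvPowerSeries (Fin n) ℂ) (hf : f ∈ I) : constantCoeff f = 0 := by
  by_contra h
  have h1 : IsUnit f := by
    rw [MvPowerSeries.isUnit_iff_constantCoeff]
    exact isUnit_iff_ne_zero.2 h
  have h2 : I = ⊤ := Ideal.eq_top_of_isUnit_mem I hf h1
  exact (Ideal.Quotient.nontrivial_iff.1 ‹_›) h2

theorem mk_mem_maximalIdeal [IsLocalRing (MvPowerSeries (Fin n) ℂ ⧸ I)]
    (f : MvPowerSeries (Fin n) ℂ) (hf : constantCoeff f = 0) :
    Ideal.Quotient.mk I f ∈ maximalIdeal (MvPowerSeries (Fin n) ℂ ⧸ I) := by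
  rw [IsLocalRing.mem_maximalIdeal, mem_nonunits_iff]
  intro h
  obtain ⟨y, hy⟩ := h.exists_right_inv
  obtain ⟨g, rfl⟩ := Ideal.Quotient.mk_surjective y
  rw [← map_mul, ← map_one (Ideal.Quotient.mk I), Ideal.Quotient.eq] at hy
  have h1 := constantCoeff_eq_zero_of_mem I _ hy
  rw [map_sub, map_mul, hf, zero_mul, map_one] at h1
  norm_num at h1

theorem maximalIdeal_quot [IsLocalRing (MvPowerSeries (Fin n) ℂ ⧸ I)] :
    maximalIdeal (MvPowerSeries (Fin n) ℂ ⧸ I) =
      Ideal.span (Set.range fun i => Ideal.Quotient.mk I (X i)) := by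
  apply le_antisymm
  · intro y hy
    obtain ⟨f, rfl⟩ := Ideal.Quotient.mk_surjective y
    have h1 : f ∈ maximalIdeal (MvPowerSeries (Fin n) ℂ) := by
      rw [IsLocalRing.mem_maximalIdeal, mem_nonunits_iff]
      intro h
      exact (IsLocalRing.mem_maximalIdeal _).1 hy (h.map _)
    rw [maximalIdeal_eq] at h1
    have h2 := Ideal.mem_map_of_mem (Ideal.Quotient.mk I) h1
    rw [Ideal.map_span, ← Set.range_comp] at h2
    exact h2
  · rw [Ideal.span_le]
    rintro _ ⟨i, rfl⟩
    exact mk_mem_maximalIdeal I _ (constantCoeff_X i)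

theorem exists_red [IsLocalRing (MvPowerSeries (Fin n) ℂ ⧸ I)] : ∃ p, Red I n p := by
  refine ⟨X, fun i => constantCoeff_X i, 0, ?_⟩
  rw [zero_add, pow_one, pow_zero, mul_one, maximalIdeal_quot]

/-- A reduction with `k + 1` generators which is not algebraically independent can be shortened. -/
theorem red_drop [IsLocalRing (MvPowerSeries (Fin n) ℂ ⧸ I)] {k : ℕ}
    (p : Fin (k + 1) → MvPowerSeries (Fin n) ℂ) (h : Red I (k + 1) p)
    (f : MvPowerSeries (Fin (k + 1)) ℂ) (hf0 : f ≠ 0) (hf : ev I p h.1 f = 0) :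
    ∃ p', Red I k p' := by
  classical
  obtain ⟨hp, r, hr⟩ := h
  -- the order of `f`
  have hex : ∃ s, ∃ d : Fin (k + 1) →₀ ℕ, d.degree = s ∧ coeff d f ≠ 0 := by
    by_contra hcon
    push Not at hcon
    apply hf0
    ext d
    rw [hcon d.degree d rfl, map_zero]
  obtain ⟨d0, hd0, hd0f⟩ := Nat.find_spec hex
  set s := Nat.find hex with hs
  have hlow : ∀ d : Fin (k + 1) →₀ ℕ, d.degree < s → coeff d f = 0 := by
    intro d hd
    by_contra hcon
    exact Nat.find_min hex hd ⟨d, rfl, hcon⟩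
  set g := truncTotal (s + 1) f with hg
  have hgc : ∀ d : Fin (k + 1) →₀ ℕ, d.degree < s + 1 → MvPolynomial.coeff d g = coeff d f :=
    fun d hd => coeff_truncTotal _ hd
  have hghom : g.IsHomogeneous s := by
    intro d hd
    have hw : Finsupp.weight 1 d = d.degree := (DFunLike.congr_fun Finsupp.degree_eq_weight_one d).symm
    rw [hw]
    by_contra hcon
    rcases lt_or_gt_of_ne hcon with h1 | h1
    · exact hd ((hgc d (by omega)).trans (hlow d h1))
    · exact hd (coeff_truncTotal_eq_zero _ (by omega))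
  have hg0 : g ≠ 0 := by
    intro h0
    have h1 := hgc d0 (by omega)
    rw [h0, MvPolynomial.coeff_zero] at h1
    exact hd0f h1.symm
  have hgx : MvPolynomial.aeval (fun i => Ideal.Quotient.mk I (p i)) g ∈
      Ideal.span (Set.range fun i => Ideal.Quotient.mk I (p i)) ^ (s + 1) := by
    rw [← ev_coe I p hp g]
    have h1 : ev I p hp (f - (g : MvPowerSeries (Fin (k + 1)) ℂ)) ∈
        Ideal.span (Set.range fun i => Ideal.Quotient.mk I (p i)) ^ (s + 1) := by
      refine ev_mem I p hp (s + 1) _ fun d hd => ?_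
      rw [map_sub, MvPolynomial.coeff_coe, hgc d hd, sub_self]
    rw [map_sub, hf, zero_sub] at h1
    exact (neg_mem_iff (S := Ideal _)).1 h1
  obtain ⟨c, j, N, hN⟩ := drop_one (fun i => Ideal.Quotient.mk I (p i))
    (fun i => mk_mem_maximalIdeal I (p i) (hp i)) s r g hghom hg0 hgx hr
  refine ⟨fun i => c j • p (j.succAbove i) - c (j.succAbove i) • p j, ?_, N, ?_⟩
  · intro i
    show constantCoeff (c j • p (j.succAbove i) - c (j.succAbove i) • p j) = 0
    rw [map_sub, MvPowerSeries.smul_eq_C_mul, MvPowerSeries.smul_eq_C_mul, map_mul, map_mul, hp, hp,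
      mul_zero, mul_zero, sub_zero]
  · exact hN

end Pool.Agent.Helper93.RG0
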